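import Pool.Agent.Helper35.Cq.Defs

/-!
# CQ-6: greedy bases
-/

set_option autoImplicit false

open Finset Module
open scoped Classical

namespace Pool.Agent.Helper35.Cq

namespace Greedy

variable {F : Type*} [Field F] {V : Type*} [AddCommGroup V] [Module F V]

theorem finrank_indep {B : Finset V} (h : LinearIndepOn F id (B : Set V)) :
    rk F B = B.card := by
  unfold rk
  exact finrank_span_finset_eq_card h

theorem rk_mono {A B : Finset V} (h : A ⊆ B) : rk F A ≤ rk F B := by
  unfold rk
  have := FiniteDimensional.span_finset F B
  exact Submodule.finrank_mono (Submodule.span_mono (by exact_mod_cast h))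

theorem span_eq {A B : Finset V} (h : A ⊆ B) (hr : rk F B ≤ rk F A) :
    Submodule.span F (A : Set V) = Submodule.span F (B : Set V) := by
  have := FiniteDimensional.span_finset F B
  refine Submodule.eq_of_le_of_finrank_le (Submodule.span_mono (by exact_mod_cast h)) ?_
  exact hr

theorem rk_insert_le (A : Finset V) (v : V) : rk F (insert v A) ≤ rk F A + 1 := by
  unfold rk
  rw [Finset.coe_insert, Submodule.span_insert]
  have := FiniteDimensional.span_finset F A
  have h1 := Submodule.finrank_add_le_finrank_add_finrank (Submodule.span F {v})
    (Submodule.span F (A : Set V))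
  have h2 : Module.finrank F (Submodule.span F {v}) ≤ 1 := by
    by_cases hv : v = 0
    · rw [hv, Submodule.span_zero_singleton, finrank_bot]
      exact Nat.zero_le _
    · rw [finrank_span_singleton hv]
  omega

theorem key (X : Finset V) (w : V → ℕ) (b : ℕ) :
    ∃ B ⊆ X, LinearIndepOn F id (B : Set V) ∧ B.card ≤ b ∧
      ∀ s, min (rk F (X.filter fun x => s < w x)) b ≤ (B.filter fun x => s < w x).card := by
  induction X using Finset.induction_on_min_value w with
  | empty =>
    refine ⟨∅, Finset.Subset.refl _, by simp, by simp, fun s => ?_⟩
    simp [rk]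
  | insert v X hv hmin ih =>
    obtain ⟨B, hBX, hBi, hBb, hB⟩ := ih
    by_cases hw : w v = 0
    · refine ⟨B, hBX.trans (Finset.subset_insert _ _), hBi, hBb, fun s => ?_⟩
      have h1 : (insert v X).filter (fun x => s < w x) = X.filter (fun x => s < w x) := by
        rw [Finset.filter_insert, if_neg (by omega)]
      rw [h1]
      exact hB s
    · have h0 : X.filter (fun x => 0 < w x) = X := by
        apply Finset.filter_true_of_mem
        intro x hx
        have := hmin x hx
        omega
      have hB0 := hB 0
      rw [h0] at hB0
      have hBf : B.filter (fun x => 0 < w x) = B := by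
        apply Finset.filter_true_of_mem
        intro x hx
        have := hmin x (hBX hx)
        omega
      rw [hBf] at hB0
      -- generic step
      have gen : ∀ B' ⊆ insert v X, B ⊆ B' → min (rk F (insert v X)) b ≤ B'.card →
          ∀ s, min (rk F ((insert v X).filter fun x => s < w x)) b ≤
            (B'.filter fun x => s < w x).card := by
        intro B' hB' hBB' hc s
        by_cases hs : s < w v
        · have e1 : (insert v X).filter (fun x => s < w x) = insert v X := by
            apply Finset.filter_true_of_mem
            intro x hx
            rcases Finset.mem_insert.1 hx with rfl | hx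
            · exact hs
            · exact lt_of_lt_of_le hs (hmin x hx)
          have e2 : B'.filter (fun x => s < w x) = B' := by
            apply Finset.filter_true_of_mem
            intro x hx
            rcases Finset.mem_insert.1 (hB' hx) with rfl | hx
            · exact hs
            · exact lt_of_lt_of_le hs (hmin x hx)
          rw [e1, e2]
          exact hc
        · have h1 : (insert v X).filter (fun x => s < w x) = X.filter (fun x => s < w x) := by
            rw [Finset.filter_insert, if_neg hs]
          rw [h1]
          exact (hB s).trans (Finset.card_le_card (Finset.filter_subset_filter _ hBB'))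
      by_cases hb : b ≤ B.card
      · refine ⟨B, hBX.trans (Finset.subset_insert _ _), hBi, hBb,
          gen B (hBX.trans (Finset.subset_insert _ _)) (Finset.Subset.refl _) ?_⟩
        exact (min_le_right _ _).trans hb
      · have hrk : rk F X ≤ B.card := by
          rcases min_le_iff.1 hB0 with h | h
          · exact h
          · omega
        have hsp : Submodule.span F (B : Set V) = Submodule.span F (X : Set V) :=
          span_eq hBX (by rw [finrank_indep hBi]; exact hrk)
        by_cases hvs : v ∈ Submodule.span F (B : Set V)
        · refine ⟨B, hBX.trans (Finset.subset_insert _ _), hBi, hBb,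
            gen B (hBX.trans (Finset.subset_insert _ _)) (Finset.Subset.refl _) ?_⟩
          have h1 : rk F (insert v X) = rk F X := by
            unfold rk
            rw [Finset.coe_insert, Submodule.span_insert_eq_span (by rw [← hsp]; exact hvs)]
          rw [h1]
          exact (min_le_left _ _).trans hrk
        · have hvB : v ∉ B := fun h => hv (hBX h)
          have hcard : (insert v B).card = B.card + 1 := Finset.card_insert_of_notMem hvB
          refine ⟨insert v B, Finset.insert_subset_insert _ hBX, ?_, by omega,
            gen _ (Finset.insert_subset_insert _ hBX) (Finset.subset_insert _ _) ?_⟩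
          · rw [Finset.coe_insert]
            exact hBi.id_insert hvs
          · have := rk_insert_le (F := F) X v
            exact (min_le_left _ _).trans (by omega)

end Greedy

theorem greedy {F : Type*} [Field F] {V : Type*} [AddCommGroup V] [Module F V]
    (X : Finset V) (w : V → ℕ) (b : ℕ) (Λ : ℝ) (hΛ0 : 0 ≤ Λ)
    (hΛ : ∀ Y ⊆ X, (Y.card : ℝ) ≤ Λ * (min (rk F Y) b : ℕ)) :
    ∃ B ⊆ X, LinearIndepOn F id (B : Set V) ∧ B.card ≤ b ∧
      (∑ x ∈ X, w x : ℝ) ≤ Λ * ∑ x ∈ B, (w x : ℝ) := by
  obtain ⟨B, hBX, hBi, hBb, hB⟩ := Greedy.key (F := F) X w b
  refine ⟨B, hBX, hBi, hBb, ?_⟩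
  obtain ⟨M, hM⟩ : ∃ M, ∀ x ∈ X, w x ≤ M := ⟨X.sup w, fun x hx => Finset.le_sup hx⟩
  have cake : ∀ Z ⊆ X, (∑ x ∈ Z, (w x : ℝ)) =
      ∑ s ∈ range M, ((Z.filter fun x => s < w x).card : ℝ) := by
    intro Z hZ
    have h1 : ∀ x ∈ Z, (w x : ℝ) = ∑ s ∈ range M, (if s < w x then (1 : ℝ) else 0) := by
      intro x hx
      rw [Finset.sum_ite, Finset.sum_const_zero, add_zero, Finset.sum_const, nsmul_eq_mul, mul_one]
      have : (range M).filter (fun s => s < w x) = range (w x) := by
        ext s
        simp only [Finset.mem_filter, Finset.mem_range]
        have := hM x (hZ hx)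
        omega
      rw [this, Finset.card_range]
    rw [Finset.sum_congr rfl h1, Finset.sum_comm]
    refine Finset.sum_congr rfl fun s _ => ?_
    rw [Finset.card_filter]
    push_cast
    rfl
  rw [cake X (Finset.Subset.refl _), cake B hBX, Finset.mul_sum]
  refine Finset.sum_le_sum fun s _ => ?_
  refine (hΛ _ (Finset.filter_subset _ _)).trans ?_
  exact mul_le_mul_of_nonneg_left (by exact_mod_cast hB s) hΛ0

end Pool.Agent.Helper35.Cq
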