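import Pool.Agent.Helper35.Cq.Defs
import Pool.Agent.Helper20.Cq.Exchange
import Pool.Agent.Helper41.Cq.Cut
import Pool.Agent.Helper32.Cq.Pairs

/-!
# CQ-5: long pairs between two independent sets
-/

set_option autoImplicit false

open Finset Module
open scoped Classical

namespace Pool.Agent.Helper35.Cq

namespace Pairs

variable {F : Type*} [Field F] {V : Type*} [AddCommGroup V] [Module F V]

/-- number of pairs as a sum over the second coordinate -/
theorem card_pairs_eq (E A B : Finset V) :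
    (pairs F E A B).card = ∑ y ∈ B, (A.filter fun x => Long F E x y).card := by
  unfold pairs
  rw [Finset.card_filter, Finset.sum_product_right]
  refine Finset.sum_congr rfl fun y _ => ?_
  rw [Finset.card_filter]

theorem le_of_not_hasClique [Fintype F] {E : Finset V} (hE : Conic F E) (t : ℕ)
    (hcl : ¬ HasClique F t (E : Set V)) (S T : Finset V)
    (hI : LinearIndepOn F id ((S ∪ T : Finset V) : Set V)) (hST : Disjoint S T) :
    (pairs F E S T).card ≤ Fintype.card F * 2 ^ t * (S.card + T.card) := by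
  by_contra hcon
  push Not at hcon
  apply hcl
  refine hasClique_of_pairs hE t (S ∪ T) S T hI Finset.subset_union_left
    Finset.subset_union_right hST (by omega) ?_
  rw [Finset.card_union_of_disjoint hST]
  exact hcon.le

/-- `a b / (a + b) ≤ a` -/
theorem harm_le {a b : ℝ} (ha : 0 ≤ a) (hb : 0 ≤ b) : a * b * (1 / (a + b)) ≤ a := by
  rcases eq_or_lt_of_le ha with h | h
  · rw [← h]; simp
  · rw [mul_one_div, div_le_iff₀ (by positivity)]
    nlinarith

end Pairs

open Pairs in
theorem card_pairs_le {F : Type*} [Field F] [Fintype F] {V : Type*} [AddCommGroup V]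
    [Module F V] {E : Finset V} (hE : Conic F E) (t : ℕ) (hcl : ¬ HasClique F t (E : Set V))
    (B₁ B₂ : Finset V) (h₁ : LinearIndepOn F id (B₁ : Set V))
    (h₂ : LinearIndepOn F id (B₂ : Set V)) :
    (pairs F E B₁ B₂).card ≤ 2 ^ (t + 4) * Fintype.card F * (B₁.card + B₂.card) := by
  obtain ⟨N, hN⟩ : ∃ N : V → Finset V, ∀ y, N y = B₁.filter fun x => Long F E x y :=
    ⟨_, fun _ => rfl⟩
  have hNB : ∀ y, N y ⊆ B₁ := fun y => by rw [hN]; exact Finset.filter_subset _ _
  obtain ⟨w, hw⟩ : ∃ w : V → V → ℝ, ∀ i j, w i j =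
      ∑ y ∈ B₂, if i ∈ N y ∧ j ∈ N y then 1 / ((N y).card : ℝ) else 0 := ⟨_, fun _ _ => rfl⟩
  have hsymm : ∀ i j, w i j = w j i := by
    intro i j
    rw [hw, hw]
    refine Finset.sum_congr rfl fun y _ => ?_
    simp only [and_comm]
  obtain ⟨S, hS, hcut⟩ := exists_cut B₁ w hsymm
  obtain ⟨T, hT, hi1, hd1, hi2, hd2⟩ := exchange (F := F) B₁ B₂ h₁ h₂ S hS
  -- double sums of `w` over products
  have hprod : ∀ A B : Finset V, ∑ i ∈ A, ∑ j ∈ B, w i j =
      ∑ y ∈ B₂, (((A ∩ N y).card : ℝ) * ((B ∩ N y).card : ℝ)) * (1 / ((N y).card : ℝ)) := by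
    intro A B
    simp only [hw]
    have h3 : ∀ i ∈ A, ∑ j ∈ B, ∑ y ∈ B₂, (if i ∈ N y ∧ j ∈ N y then 1 / ((N y).card : ℝ) else 0)
        = ∑ y ∈ B₂, ∑ j ∈ B, (if i ∈ N y ∧ j ∈ N y then 1 / ((N y).card : ℝ) else 0) :=
      fun i _ => Finset.sum_comm
    rw [Finset.sum_congr rfl h3, Finset.sum_comm]
    refine Finset.sum_congr rfl fun y _ => ?_
    have h4 : ∀ i ∈ A, ∑ j ∈ B, (if i ∈ N y ∧ j ∈ N y then 1 / ((N y).card : ℝ) else 0) =
        if i ∈ N y then ((B ∩ N y).card : ℝ) * (1 / ((N y).card : ℝ)) else 0 := by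
      intro i _
      by_cases hi : i ∈ N y
      · simp only [hi, true_and, if_true]
        rw [← Finset.sum_filter, Finset.sum_const, nsmul_eq_mul, Finset.filter_mem_eq_inter]
      · simp [hi]
    rw [Finset.sum_congr rfl h4, ← Finset.sum_filter, Finset.sum_const, nsmul_eq_mul,
      Finset.filter_mem_eq_inter]
    ring
  -- the left-hand side of the cut inequality
  have hleft : ((pairs F E B₁ B₂).card : ℝ) - B₂.card ≤ ∑ i ∈ B₁, ∑ j ∈ B₁.erase i, w i j := by
    have h5 : ∑ i ∈ B₁, ∑ j ∈ B₁.erase i, w i j =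
        ∑ i ∈ B₁, ∑ j ∈ B₁, w i j - ∑ i ∈ B₁, w i i := by
      rw [← Finset.sum_sub_distrib]
      refine Finset.sum_congr rfl fun i hi => ?_
      rw [← Finset.add_sum_erase _ _ hi]
      ring
    have h6 : ∑ i ∈ B₁, w i i = ∑ y ∈ B₂, ((N y).card : ℝ) * (1 / ((N y).card : ℝ)) := by
      simp only [hw, and_self]
      rw [Finset.sum_comm]
      refine Finset.sum_congr rfl fun y _ => ?_
      rw [← Finset.sum_filter, Finset.sum_const, nsmul_eq_mul, Finset.filter_mem_eq_inter,
        Finset.inter_eq_right.2 (hNB y)]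
    rw [h5, h6, hprod, card_pairs_eq]
    push_cast
    rw [← Finset.sum_sub_distrib, Finset.card_eq_sum_ones B₂]
    push_cast
    rw [← Finset.sum_sub_distrib]
    refine Finset.sum_le_sum fun y _ => ?_
    rw [Finset.inter_eq_right.2 (hNB y), ← hN]
    rcases Nat.eq_zero_or_pos (N y).card with h0 | h0
    · rw [h0]; simp
    · have h7 : (0 : ℝ) < (N y).card := by exact_mod_cast h0
      have h8 : ((N y).card : ℝ) * (1 / ((N y).card : ℝ)) = 1 := by field_simp
      have h9 : ((N y).card : ℝ) * ((N y).card : ℝ) * (1 / ((N y).card : ℝ)) = (N y).card := by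
        field_simp
      rw [h8, h9]
  -- the right-hand side
  have hright : ∑ i ∈ S, ∑ j ∈ B₁ \ S, w i j ≤
      ((pairs F E S (B₂ \ T)).card : ℝ) + (pairs F E (B₁ \ S) T).card := by
    rw [hprod, card_pairs_eq, card_pairs_eq, ← Finset.sum_sdiff hT]
    push_cast
    refine add_le_add (Finset.sum_le_sum fun y _ => ?_) (Finset.sum_le_sum fun y _ => ?_)
    · have e1 : (S.filter fun x => Long F E x y) = S ∩ N y := by
        ext x
        simp only [hN, Finset.mem_filter, Finset.mem_inter]
        constructor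
        · rintro ⟨h1, h2⟩; exact ⟨h1, hS h1, h2⟩
        · rintro ⟨h1, _, h2⟩; exact ⟨h1, h2⟩
      have e2 : (N y).card = (S ∩ N y).card + ((B₁ \ S) ∩ N y).card := by
        rw [← Finset.card_union_of_disjoint, ← Finset.union_inter_distrib_right,
          Finset.union_sdiff_of_subset hS, Finset.inter_eq_right.2 (hNB y)]
        exact (Finset.disjoint_sdiff).mono Finset.inter_subset_left Finset.inter_subset_left
      rw [e1, e2]
      push_cast
      exact harm_le (Nat.cast_nonneg _) (Nat.cast_nonneg _)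
    · have e1 : ((B₁ \ S).filter fun x => Long F E x y) = (B₁ \ S) ∩ N y := by
        ext x
        simp only [hN, Finset.mem_filter, Finset.mem_inter]
        constructor
        · rintro ⟨h1, h2⟩; exact ⟨h1, Finset.sdiff_subset h1, h2⟩
        · rintro ⟨h1, _, h2⟩; exact ⟨h1, h2⟩
      have e2 : (N y).card = ((B₁ \ S) ∩ N y).card + (S ∩ N y).card := by
        rw [add_comm, ← Finset.card_union_of_disjoint, ← Finset.union_inter_distrib_right,
          Finset.union_sdiff_of_subset hS, Finset.inter_eq_right.2 (hNB y)]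
        exact (Finset.disjoint_sdiff).mono Finset.inter_subset_left Finset.inter_subset_left
      rw [e1, e2, mul_comm ((S ∩ N y).card : ℝ)]
      push_cast
      exact harm_le (Nat.cast_nonneg _) (Nat.cast_nonneg _)
  have hp1 := le_of_not_hasClique hE t hcl S (B₂ \ T) hi1 hd1
  have hp2 := le_of_not_hasClique hE t hcl (B₁ \ S) T hi2 hd2
  have hc1 : (B₁ \ S).card + S.card = B₁.card := Finset.card_sdiff_add_card_eq_card hS
  have hc2 : (B₂ \ T).card + T.card = B₂.card := Finset.card_sdiff_add_card_eq_card hT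
  have hsum : (pairs F E S (B₂ \ T)).card + (pairs F E (B₁ \ S) T).card ≤
      Fintype.card F * 2 ^ t * (B₁.card + B₂.card) := by
    calc _ ≤ Fintype.card F * 2 ^ t * (S.card + (B₂ \ T).card) +
          Fintype.card F * 2 ^ t * ((B₁ \ S).card + T.card) := add_le_add hp1 hp2
      _ = _ := by rw [← hc1, ← hc2]; ring
  have hreal : ((pairs F E B₁ B₂).card : ℝ) ≤
      B₂.card + 4 * (Fintype.card F * 2 ^ t * (B₁.card + B₂.card)) := by
    have h10 : ((pairs F E S (B₂ \ T)).card : ℝ) + (pairs F E (B₁ \ S) T).card ≤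
        Fintype.card F * 2 ^ t * (B₁.card + B₂.card) := by exact_mod_cast hsum
    linarith
  have hnat : (pairs F E B₁ B₂).card ≤
      B₂.card + 4 * (Fintype.card F * 2 ^ t * (B₁.card + B₂.card)) := by exact_mod_cast hreal
  have hq : 1 ≤ Fintype.card F * 2 ^ t :=
    Nat.one_le_iff_ne_zero.2 (mul_ne_zero Fintype.card_ne_zero (by positivity))
  calc (pairs F E B₁ B₂).card ≤ B₂.card + 4 * (Fintype.card F * 2 ^ t * (B₁.card + B₂.card)) :=
        hnat
    _ ≤ 16 * (Fintype.card F * 2 ^ t * (B₁.card + B₂.card)) := by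
        have : B₂.card ≤ Fintype.card F * 2 ^ t * (B₁.card + B₂.card) := by
          calc B₂.card ≤ B₁.card + B₂.card := Nat.le_add_left _ _
            _ = 1 * (B₁.card + B₂.card) := (one_mul _).symm
            _ ≤ _ := Nat.mul_le_mul_right _ hq
        omega
    _ = 2 ^ (t + 4) * Fintype.card F * (B₁.card + B₂.card) := by ring

end Pool.Agent.Helper35.Cq
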